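import Mathlib

/-!
# Population ratio of periodic patterns in reversible elementary square PCAs

One explicit reversible non-conservative ESPCA has periodic patterns with arbitrarily large
ratio `p_max / p_min`.
-/

namespace Pool.Agent.Results.MP_998f06_co.UnboundedRatio

/-- The state `(t, r, b, l)` of a cell: top, right, bottom and left part. -/
abbrev Cell : Type := Bool × Bool × Bool × Bool

/-- The zero state. -/
def zero : Cell := (false, false, false, false)

/-- A configuration assigns a state to every cell of the square grid. -/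
abbrev Conf : Type := ℤ × ℤ → Cell

/-- The global map of the ESPCA with local function `f`. -/
def glob (f : Cell → Cell) (α : Conf) : Conf := fun x =>
  f ((α (x.1, x.2 + 1)).1, (α (x.1 + 1, x.2)).2.1, (α (x.1, x.2 - 1)).2.2.1,
    (α (x.1 - 1, x.2)).2.2.2)

/-- Rotation symmetry of the local function. -/
def RotSym (f : Cell → Cell) : Prop :=
  ∀ t r b l t' r' b' l' : Bool, f (t, r, b, l) = (t', r', b', l') →
    f (r, b, l, t) = (r', b', l', t')

/-- The number of ones of a state. -/
def ones (s : Cell) : ℕ := s.1.toNat + s.2.1.toNat + s.2.2.1.toNat + s.2.2.2.toNat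

/-- The local function preserves the number of ones of every state. -/
def Conservative (f : Cell → Cell) : Prop := ∀ s, ones (f s) = ones s

/-- Only finitely many cells are non-zero. -/
def FiniteConf (α : Conf) : Prop := {x | α x ≠ zero}.Finite

/-- The population: the total number of ones (a finite sum for a finite configuration). -/
noncomputable def popul (α : Conf) : ℕ := ∑ᶠ x, ones (α x)

/-- A periodic pattern: a non-null finite configuration that recurs. -/
def IsPeriodicPattern (f : Cell → Cell) (α : Conf) : Prop :=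
  (∃ x, α x ≠ zero) ∧ FiniteConf α ∧ ∃ n : ℕ, 1 ≤ n ∧ (glob f)^[n] α = α

/-- The local function of the example. -/
def rule : Cell → Cell
  | (false, false, false, false) => (false, false, false, false)
  | (true, false, false, false) => (false, false, true, false)
  | (false, true, false, false) => (false, false, false, true)
  | (false, false, true, false) => (true, false, false, false)
  | (false, false, false, true) => (false, true, false, false)
  | (false, false, true, true) => (true, false, true, true)
  | (false, true, true, false) => (false, true, true, true)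
  | (true, true, false, false) => (true, true, true, false)
  | (true, false, false, true) => (true, true, false, true)
  | (true, false, true, false) => (false, true, false, true)
  | (false, true, false, true) => (true, false, true, false)
  | (false, true, true, true) => (true, false, false, true)
  | (true, false, true, true) => (true, true, false, false)
  | (true, true, false, true) => (false, true, true, false)
  | (true, true, true, false) => (false, false, true, true)
  | (true, true, true, true) => (true, true, true, true)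

theorem rule_inj : Function.Injective rule := by decide

theorem rule_rot : RotSym rule := by
  unfold RotSym; decide

theorem rule_not_cons : ¬ Conservative rule := by
  unfold Conservative; decide

theorem glob_inj {f : Cell → Cell} (hf : Function.Injective f) :
    Function.Injective (glob f) := by
  intro α β h
  have key : ∀ x : ℤ × ℤ, ((α (x.1, x.2 + 1)).1, (α (x.1 + 1, x.2)).2.1,
      (α (x.1, x.2 - 1)).2.2.1, (α (x.1 - 1, x.2)).2.2.2) =
      ((β (x.1, x.2 + 1)).1, (β (x.1 + 1, x.2)).2.1,
      (β (x.1, x.2 - 1)).2.2.1, (β (x.1 - 1, x.2)).2.2.2) := fun x => hf (congrFun h x)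
  funext ⟨a, b⟩
  have h1 := key (a, b - 1)
  have h2 := key (a - 1, b)
  have h3 := key (a, b + 1)
  have h4 := key (a + 1, b)
  simp only [Prod.mk.injEq, sub_add_cancel, add_sub_cancel_right] at h1 h2 h3 h4
  exact Prod.ext h1.1 (Prod.ext h2.2.1 (Prod.ext h3.2.2.1 h4.2.2.2))

/-! ## Light cone -/

theorem cone (f : Cell → Cell) (α β : Conf) (t : ℕ) : ∀ x y : ℤ,
    (∀ i j : ℤ, x - t ≤ i → i ≤ x + t → α (i, j) = β (i, j)) →
    (glob f)^[t] α (x, y) = (glob f)^[t] β (x, y) := by
  induction t with
  | zero =>
    intro x y h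
    simpa using h x y (by simp) (by simp)
  | succ t ih =>
    intro x y h
    rw [Function.iterate_succ_apply', Function.iterate_succ_apply']
    unfold glob
    push_cast at h
    have h1 := ih x (y + 1) (fun i j h1 h2 => h i j (by omega) (by omega))
    have h2 := ih (x + 1) y (fun i j h1 h2 => h i j (by omega) (by omega))
    have h3 := ih x (y - 1) (fun i j h1 h2 => h i j (by omega) (by omega))
    have h4 := ih (x - 1) y (fun i j h1 h2 => h i j (by omega) (by omega))
    unfold glob at h1 h2 h3 h4
    simp only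
    rw [h1, h2, h3, h4]

/-! ## The infinite diagonal -/

/-- The evolution of the infinite diagonal from time three on. -/
def P (s : ℤ) (u : ℤ) : Cell :=
  if u = -3 - s then (true, true, true, false)
  else if u = -1 - s then (false, true, true, true)
  else if u = 1 + s then (true, true, false, true)
  else if u = 3 + s then (true, false, true, true)
  else if -s < u ∧ u < s ∧ (u + s) % 2 = 1 then (true, true, true, true)
  else (false, false, false, false)

theorem P_cases (s : ℤ) (u : ℤ) :
    (u = -3 - s ∧ P s u = (true, true, true, false)) ∨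
    (u = -1 - s ∧ P s u = (false, true, true, true)) ∨
    (u = 1 + s ∧ P s u = (true, true, false, true)) ∨
    (u = 3 + s ∧ P s u = (true, false, true, true)) ∨
    ((-s < u ∧ u < s ∧ (u + s) % 2 = 1) ∧ P s u = (true, true, true, true)) ∨
    ((u ≠ -3 - s ∧ u ≠ -1 - s ∧ u ≠ 1 + s ∧ u ≠ 3 + s ∧ ¬ (-s < u ∧ u < s ∧ (u + s) % 2 = 1)) ∧
      P s u = (false, false, false, false)) := by
  unfold P
  split_ifs with h1 h2 h3 h4 h5
  · exact Or.inl ⟨h1, rfl⟩
  · exact Or.inr (Or.inl ⟨h2, rfl⟩)
  · exact Or.inr (Or.inr (Or.inl ⟨h3, rfl⟩))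
  · exact Or.inr (Or.inr (Or.inr (Or.inl ⟨h4, rfl⟩)))
  · exact Or.inr (Or.inr (Or.inr (Or.inr (Or.inl ⟨h5, rfl⟩))))
  · exact Or.inr (Or.inr (Or.inr (Or.inr (Or.inr ⟨⟨h1, h2, h3, h4, h5⟩, rfl⟩))))

theorem P_step (s : ℤ) (hs : 0 ≤ s) (u : ℤ) :
    rule ((P s (u + 1)).1, (P s (u + 1)).2.1, (P s (u - 1)).2.2.1, (P s (u - 1)).2.2.2) =
      P (s + 1) u := by
  rcases P_cases s (u + 1) with ⟨h, e⟩ | ⟨h, e⟩ | ⟨h, e⟩ | ⟨h, e⟩ | ⟨h, e⟩ | ⟨h, e⟩ <;>
  rcases P_cases s (u - 1) with ⟨h', e'⟩ | ⟨h', e'⟩ | ⟨h', e'⟩ | ⟨h', e'⟩ | ⟨h', e'⟩ | ⟨h', e'⟩ <;>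
  first
    | (exfalso; omega)
    | (rw [e, e']
       rcases P_cases (s + 1) u with ⟨h'', e''⟩ | ⟨h'', e''⟩ | ⟨h'', e''⟩ | ⟨h'', e''⟩ |
         ⟨h'', e''⟩ | ⟨h'', e''⟩ <;>
       first
         | (exfalso; omega)
         | (rw [e'']; rfl))

/-- The infinite diagonal. -/
def diagInf : Conf := fun x => if x.1 + x.2 = 0 then (true, true, true, true) else zero

def P1 (u : ℤ) : Cell :=
  if u = -1 then (true, true, true, false)
  else if u = 1 then (true, false, true, true)
  else (false, false, false, false)

def P2 (u : ℤ) : Cell :=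
  if u = -2 then (true, true, true, false)
  else if u = 0 then (false, true, false, true)
  else if u = 2 then (true, false, true, true)
  else (false, false, false, false)

theorem lift (A B : ℤ → Cell)
    (h : ∀ u, rule ((A (u + 1)).1, (A (u + 1)).2.1, (A (u - 1)).2.2.1, (A (u - 1)).2.2.2) = B u) :
    glob rule (fun x => A (x.1 + x.2)) = fun x => B (x.1 + x.2) := by
  funext ⟨x, y⟩
  simp only
  rw [← h (x + y)]
  simp only [glob]
  have e1 : x + (y + 1) = x + y + 1 := by ring
  have e2 : x + 1 + y = x + y + 1 := by ring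
  have e3 : x + (y - 1) = x + y - 1 := by ring
  have e4 : x - 1 + y = x + y - 1 := by ring
  rw [e1, e2, e3, e4]

theorem diag1 : glob rule diagInf = fun x => P1 (x.1 + x.2) := by
  apply lift (fun u => if u = 0 then (true, true, true, true) else zero) P1
  intro u
  unfold P1 zero
  split_ifs <;> first | rfl | (exfalso; omega)

theorem diag2 : glob rule (fun x => P1 (x.1 + x.2)) = fun x => P2 (x.1 + x.2) := by
  apply lift
  intro u
  unfold P1 P2
  split_ifs <;> first | rfl | (exfalso; omega)

theorem diag3 : glob rule (fun x => P2 (x.1 + x.2)) = fun x => P 0 (x.1 + x.2) := by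
  apply lift
  intro u
  unfold P2 P
  split_ifs <;> first | rfl | (exfalso; omega)

theorem diagS (s : ℤ) (hs : 0 ≤ s) :
    glob rule (fun x => P s (x.1 + x.2)) = fun x => P (s + 1) (x.1 + x.2) :=
  lift _ _ (P_step s hs)

theorem diagInf_iter (s : ℕ) :
    (glob rule)^[s + 3] diagInf = fun x => P s (x.1 + x.2) := by
  induction s with
  | zero =>
    rw [show (0 + 3 : ℕ) = 3 from rfl]
    simp only [Function.iterate_succ_apply', Function.iterate_zero_apply]
    rw [diag1, diag2, diag3]
    rfl
  | succ s ih =>
    rw [show s + 1 + 3 = (s + 3) + 1 by ring, Function.iterate_succ_apply', ih,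
      diagS _ (by positivity)]
    push_cast
    rfl

/-! ## The finite diagonal -/

/-- The finite diagonal with `n` full cells. -/
def diag (n : ℕ) : Conf := fun x =>
  if x.1 + x.2 = 0 ∧ 0 ≤ x.1 ∧ x.1 < n then (true, true, true, true) else zero

theorem diag_iter (n s : ℕ) (x y : ℤ) (h1 : (s : ℤ) + 3 ≤ x) (h2 : x + s + 3 < n) :
    (glob rule)^[s + 3] (diag n) (x, y) = P s (x + y) := by
  rw [cone rule (diag n) diagInf (s + 3) x y, diagInf_iter]
  intro i j hi hj
  push_cast at hi hj
  unfold diag diagInf
  simp only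
  by_cases h : i + j = 0
  · rw [if_pos ⟨h, by omega, by omega⟩, if_pos h]
  · rw [if_neg (fun h' => h h'.1), if_neg h]

/-! ## Confinement -/

/-- Configurations confined to the box `[0, n) × (-n, 0]` and reflected at its border. -/
def Box (n : ℕ) (α : Conf) : Prop :=
  ∀ x y : ℤ,
    ((α (x, y)).1 = true → 0 ≤ x ∧ x < n ∧ -(n : ℤ) < y ∧ y ≤ 1) ∧
    ((α (x, y)).2.1 = true → 0 ≤ x ∧ x ≤ n ∧ -(n : ℤ) < y ∧ y ≤ 0) ∧
    ((α (x, y)).2.2.1 = true → 0 ≤ x ∧ x < n ∧ -(n : ℤ) ≤ y ∧ y ≤ 0) ∧
    ((α (x, y)).2.2.2 = true → -1 ≤ x ∧ x < n ∧ -(n : ℤ) < y ∧ y ≤ 0)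

theorem box_step (n : ℕ) (α : Conf) (h : Box n α) : Box n (glob rule α) := by
  intro x y
  have ht := (h x (y + 1)).1
  have hr := (h (x + 1) y).2.1
  have hb := (h x (y - 1)).2.2.1
  have hl := (h (x - 1) y).2.2.2
  unfold glob
  simp only
  generalize (α (x, y + 1)).1 = t at *
  generalize (α (x + 1, y)).2.1 = r at *
  generalize (α (x, y - 1)).2.2.1 = b at *
  generalize (α (x - 1, y)).2.2.2 = l at *
  clear h
  revert ht hr hb hl
  cases t <;> cases r <;> cases b <;> cases l <;> simp [rule] <;> intros <;> omega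

theorem box_iter (n : ℕ) (α : Conf) (h : Box n α) (t : ℕ) : Box n ((glob rule)^[t] α) := by
  induction t with
  | zero => exact h
  | succ t ih =>
    rw [Function.iterate_succ_apply']
    exact box_step n _ ih

/-- The box with its border. -/
noncomputable def big (n : ℕ) : Finset (ℤ × ℤ) := Finset.Icc (-1 : ℤ) n ×ˢ Finset.Icc (-(n : ℤ)) 1

theorem box_zero (n : ℕ) (α : Conf) (h : Box n α) (x : ℤ × ℤ) (hx : x ∉ big n) :
    α x = zero := by
  obtain ⟨x, y⟩ := x
  simp only [big, Finset.mem_product, Finset.mem_Icc, not_and_or] at hx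
  obtain ⟨h1, h2, h3, h4⟩ := h x y
  have e1 : (α (x, y)).1 = false := by
    by_contra hc
    have := h1 (by simpa using hc)
    omega
  have e2 : (α (x, y)).2.1 = false := by
    by_contra hc
    have := h2 (by simpa using hc)
    omega
  have e3 : (α (x, y)).2.2.1 = false := by
    by_contra hc
    have := h3 (by simpa using hc)
    omega
  have e4 : (α (x, y)).2.2.2 = false := by
    by_contra hc
    have := h4 (by simpa using hc)
    omega
  exact Prod.ext e1 (Prod.ext e2 (Prod.ext e3 e4))

theorem box_finite (n : ℕ) : {α : Conf | Box n α}.Finite := by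
  classical
  refine Set.Finite.of_injOn (f := fun (α : Conf) (x : big n) => α x.1)
    (t := Set.univ) (fun _ _ => Set.mem_univ _) ?_ Set.finite_univ
  intro α hα β hβ hab
  funext x
  by_cases hx : x ∈ big n
  · exact congrFun hab ⟨x, hx⟩
  · rw [box_zero n α hα x hx, box_zero n β hβ x hx]

theorem diag_box (n : ℕ) : Box n (diag n) := by
  intro x y
  unfold diag zero
  simp only
  split_ifs with h
  · refine ⟨fun _ => ?_, fun _ => ?_, fun _ => ?_, fun _ => ?_⟩ <;> omega
  · simp

/-! ## Populations -/

theorem ones_zero : ones zero = 0 := rfl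

theorem ones_eq_zero (s : Cell) (h : ones s = 0) : s = zero := by
  revert h
  revert s
  decide

theorem popul_eq (B : Finset (ℤ × ℤ)) (α : Conf) (h : ∀ x, x ∉ B → α x = zero) :
    popul α = ∑ x ∈ B, ones (α x) := by
  unfold popul
  apply finsum_eq_sum_of_support_subset
  intro x hx
  by_contra hc
  apply hx
  simp only
  rw [h x hc]
  rfl

theorem popul_ge (B I : Finset (ℤ × ℤ)) (α : Conf) (h : ∀ x, x ∉ B → α x = zero)
    (hI : ∀ x ∈ I, ones (α x) = 4) : 4 * I.card ≤ popul α := by
  classical
  rw [popul_eq (B ∪ I) α (fun x hx => h x (fun hB => hx (Finset.mem_union_left _ hB)))]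
  calc 4 * I.card = ∑ x ∈ I, ones (α x) := by
        rw [Finset.sum_congr rfl hI, Finset.sum_const, smul_eq_mul, mul_comm]
    _ ≤ ∑ x ∈ B ∪ I, ones (α x) :=
        Finset.sum_le_sum_of_subset Finset.subset_union_right

theorem popul_diag (n : ℕ) : popul (diag n) ≤ 4 * n := by
  classical
  rw [popul_eq ((Finset.range n).image (fun i : ℕ => ((i : ℤ), -(i : ℤ)))) (diag n)]
  · calc ∑ x ∈ (Finset.range n).image (fun i : ℕ => ((i : ℤ), -(i : ℤ))), ones (diag n x)
        ≤ ((Finset.range n).image (fun i : ℕ => ((i : ℤ), -(i : ℤ)))).card • 4 := by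
          apply Finset.sum_le_card_nsmul
          intro x _
          unfold diag
          split_ifs
          · exact le_refl 4
          · exact Nat.zero_le 4
      _ ≤ n • 4 := by
          apply Nat.mul_le_mul_right
          exact Finset.card_image_le.trans (Finset.card_range n).le
      _ = 4 * n := by rw [smul_eq_mul, mul_comm]
  · intro x hx
    unfold diag
    rw [if_neg]
    rintro ⟨h1, h2, h3⟩
    apply hx
    rw [Finset.mem_image]
    refine ⟨x.1.toNat, ?_, ?_⟩
    · rw [Finset.mem_range]; omega
    · apply Prod.ext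
      · simp only; omega
      · simp only; omega

/-- Positions of full cells at time `s + 3`. -/
def fullPos (s : ℕ) (q : ℕ × ℕ) : ℤ × ℤ :=
  ((s : ℤ) + 3 + q.1, -(s : ℤ) + 1 + 2 * q.2 - ((s : ℤ) + 3 + q.1))

theorem fullPos_inj (s : ℕ) : Function.Injective (fullPos s) := by
  intro p q h
  unfold fullPos at h
  rw [Prod.mk.injEq] at h
  obtain ⟨h1, h2⟩ := h
  apply Prod.ext <;> omega

theorem popul_late (s : ℕ) :
    8 * s * (s + 3) ≤ popul ((glob rule)^[s + 3] (diag (4 * (s + 3)))) := by
  classical
  have hb := box_iter _ _ (diag_box (4 * (s + 3))) (s + 3)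
  have := popul_ge (big (4 * (s + 3)))
    ((Finset.range (2 * (s + 3)) ×ˢ Finset.range s).image (fullPos s)) _
    (fun x hx => box_zero _ _ hb x hx) (by
      intro x hx
      rw [Finset.mem_image] at hx
      obtain ⟨⟨a, k⟩, hq, rfl⟩ := hx
      rw [Finset.mem_product, Finset.mem_range, Finset.mem_range] at hq
      obtain ⟨ha, hk⟩ := hq
      simp only at ha hk
      unfold fullPos
      simp only
      rw [diag_iter _ s _ _ (by omega) (by push_cast; omega)]
      unfold P
      rw [if_neg (by omega), if_neg (by omega), if_neg (by omega), if_neg (by omega),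
        if_pos (by omega)]
      rfl)
  rw [Finset.card_image_of_injective _ (fullPos_inj s), Finset.card_product, Finset.card_range,
    Finset.card_range] at this
  calc 8 * s * (s + 3) = 4 * (2 * (s + 3) * s) := by ring
    _ ≤ _ := this

theorem glob_zero : glob rule (fun _ => zero) = fun _ => zero := rfl

theorem glob_zero_iter (t : ℕ) : (glob rule)^[t] (fun _ => zero) = fun _ => zero := by
  induction t with
  | zero => rfl
  | succ t ih => rw [Function.iterate_succ_apply', ih, glob_zero]

theorem box_periodic (n : ℕ) (α : Conf) (h : Box n α) :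
    ∃ k : ℕ, 1 ≤ k ∧ (glob rule)^[k] α = α := by
  have hnot : ¬ Function.Injective (fun k : ℕ => (glob rule)^[k] α) := by
    intro hinj
    exact (Set.infinite_of_injective_forall_mem hinj
      (fun k => box_iter n α h k : ∀ k, (glob rule)^[k] α ∈ {α : Conf | Box n α}))
      (box_finite n)
  have key : ∀ i j : ℕ, i < j → (glob rule)^[i] α = (glob rule)^[j] α →
      ∃ k : ℕ, 1 ≤ k ∧ (glob rule)^[k] α = α := by
    intro i j hij he
    refine ⟨j - i, by omega, ?_⟩
    have hji : j = i + (j - i) := by omega
    rw [hji, Function.iterate_add_apply] at he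
    exact ((glob_inj rule_inj).iterate i he).symm
  unfold Function.Injective at hnot
  push Not at hnot
  obtain ⟨i, j, he, hne⟩ := hnot
  rcases lt_or_gt_of_ne hne with hlt | hlt
  · exact key i j hlt he
  · exact key j i hlt he.symm

/-- **Main theorem.** There is one reversible non-conservative ESPCA, the all-zero state being
quiescent, that has periodic patterns with `p_max / p_min` larger than any given number. -/
theorem result : ∃ f : Cell → Cell, RotSym f ∧ f zero = zero ∧ Function.Injective (glob f) ∧
    ¬ Conservative f ∧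
    ∀ C : ℝ, ∃ α : Conf, IsPeriodicPattern f α ∧ ∃ pmax pmin : ℕ,
      IsGreatest (Set.range (fun t : ℕ => popul ((glob f)^[t] α))) pmax ∧
      IsLeast (Set.range (fun t : ℕ => popul ((glob f)^[t] α))) pmin ∧
      1 ≤ pmin ∧ C < (pmax : ℝ) / pmin := by
  refine ⟨rule, rule_rot, rfl, glob_inj rule_inj, rule_not_cons, ?_⟩
  intro C
  obtain ⟨s, hs⟩ := exists_nat_gt (2 * C)
  set n : ℕ := 4 * (s + 3) with hn
  have hbox := diag_box n
  have hne : diag n (0, 0) ≠ zero := by
    unfold diag zero
    rw [if_pos ⟨by simp, by simp, by simp only; omega⟩]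
    decide
  have hfin : FiniteConf (diag n) := by
    apply (big n).finite_toSet.subset
    intro x hx
    by_contra hc
    exact hx (box_zero n _ hbox x hc)
  have hrange : (Set.range (fun t : ℕ => popul ((glob rule)^[t] (diag n)))).Finite := by
    apply ((box_finite n).image popul).subset
    rintro _ ⟨t, rfl⟩
    exact ⟨_, box_iter n _ hbox t, rfl⟩
  have hnonempty : (Set.range (fun t : ℕ => popul ((glob rule)^[t] (diag n)))).Nonempty :=
    ⟨_, 0, rfl⟩
  have hmax : IsGreatest (Set.range (fun t : ℕ => popul ((glob rule)^[t] (diag n))))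
      (sSup (Set.range (fun t : ℕ => popul ((glob rule)^[t] (diag n))))) :=
    ⟨Nat.sSup_mem hnonempty hrange.bddAbove, fun y hy => le_csSup hrange.bddAbove hy⟩
  have hmin : IsLeast (Set.range (fun t : ℕ => popul ((glob rule)^[t] (diag n))))
      (sInf (Set.range (fun t : ℕ => popul ((glob rule)^[t] (diag n))))) :=
    ⟨Nat.sInf_mem hnonempty, fun y hy => Nat.sInf_le hy⟩
  generalize sSup (Set.range (fun t : ℕ => popul ((glob rule)^[t] (diag n)))) = M at hmax
  generalize sInf (Set.range (fun t : ℕ => popul ((glob rule)^[t] (diag n)))) = m at hmin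
  have hm1 : 1 ≤ m := by
    by_contra hc
    obtain ⟨t, ht⟩ := hmin.1
    simp only at ht
    have h0 : popul ((glob rule)^[t] (diag n)) = 0 := by omega
    rw [popul_eq (big n) _ (fun x hx => box_zero n _ (box_iter n _ hbox t) x hx),
      Finset.sum_eq_zero_iff] at h0
    have h1 : (glob rule)^[t] (diag n) = fun _ => zero := by
      funext x
      by_cases hx : x ∈ big n
      · exact ones_eq_zero _ (h0 x hx)
      · exact box_zero n _ (box_iter n _ hbox t) x hx
    rw [← glob_zero_iter t] at h1
    have h2 := (glob_inj rule_inj).iterate t h1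
    exact hne (congrFun h2 (0, 0))
  have hM : 8 * s * (s + 3) ≤ M := (popul_late s).trans (hmax.2 ⟨s + 3, rfl⟩)
  have hm : m ≤ 16 * (s + 3) := by
    have h1 : m ≤ popul (diag n) := hmin.2 ⟨0, rfl⟩
    have h2 := popul_diag n
    omega
  refine ⟨diag n, ⟨⟨_, hne⟩, hfin, box_periodic n _ hbox⟩, M, m, hmax, hmin, hm1, ?_⟩
  have hm0 : (0 : ℝ) < m := by exact_mod_cast hm1
  rw [lt_div_iff₀ hm0]
  have hMr : (8 * s * (s + 3) : ℝ) ≤ M := by exact_mod_cast hM
  have hmr : (m : ℝ) ≤ 16 * (s + 3) := by exact_mod_cast hm
  by_cases hC : C ≤ 0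
  · have hs1 : (0 : ℝ) ≤ s := Nat.cast_nonneg s
    rcases eq_or_lt_of_le hs1 with h | h
    · have hC' : C < 0 := by
        have : 2 * C < 0 := by rw [h]; exact hs
        linarith
      have h2 : (0 : ℝ) ≤ M := Nat.cast_nonneg M
      nlinarith
    · have h3 : (0 : ℝ) < 8 * s * (s + 3) := by positivity
      nlinarith
  · have hC' : 0 < C := lt_of_not_ge hC
    have h1 : C * m ≤ C * (16 * (s + 3)) := mul_le_mul_of_nonneg_left hmr hC'.le
    have h2 : C * (16 * (s + 3)) < 8 * s * (s + 3) := by
      have : (0 : ℝ) < s + 3 := by positivity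
      nlinarith
    linarith

end Pool.Agent.Results.MP_998f06_co.UnboundedRatio
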